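import Pool.Agent.Q280.MD.Exact
import Pool.Agent.Q280.SD.B

/-!
# The exceptional orbits of the modular Schanuel conjecture with derivatives and special points

For a finite set `S` of points of the upper half-plane with `j' ≠ 0` in different orbits of `GL_2(ℚ)` let the *defect* of
`S` be `3 m_1 + m_2 - t`, where `m_1` is the number of the non-special points in `S`, `m_2` is the number of the special
points in `S` and `t` is the transcendence degree of the field generated by the numbers `z`, `j(z)`, `j'(z)`, `j''(z)`,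
`z` in `S`.  The conjecture says that the defect is never positive.

We prove, without any hypothesis, that all possible violations of the conjecture come from one canonical set `B` of
orbits: the inequality is exact over the field of `B`, and `B` is contained in every union of orbits with this property;
the defect of `S` is at most the defect of `S ∩ B` for every `S`; `B` is stable under `z ↦ - conj z`; `B` consists of the
points of the sets `S` for which all proper subsets have a smaller defect.  The conjecture holds if and only if `B` is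
empty, and it holds with a bounded error, `t ≥ 3 m_1 + m_2 - C`, if and only if `B` consists of finitely many orbits.

Proof.  (1) If `w = g z` with `g` in `GL_2^+(ℚ)` and `j'(z) ≠ 0`, then `w`, `j(w)`, `j'(w)`, `j''(w)` are algebraic over
`ℚ(z, j(z), j'(z), j''(z))`: let `V(s) = j(z + s)`, `U(s) = j(g(z + s))`, let `D` be a derivation of `ℂ` which kills the
four numbers at `z`; the derivation `V' D - (D V) d/ds` of the ring of power series kills `V` and the algebraic numbers,
hence also `U`, which is integral over `ℚ̄[V]`, so `V' (D U) = (D V) U' = O(s^3)`.  So the transcendence degree is well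
defined for finite sets of orbits, and the defect is a supermodular function on these sets.  (2) For a supermodular
function the sets, such that all proper subsets have a smaller value, are directed; `B` is their union.
-/

set_option autoImplicit false

open Matroid Set Q241.SX

namespace Pool.Agent.Results.MP_f58a57_nt.ExceptionalOrbits

/-- the normalised Eisenstein series of weight `4` -/
noncomputable def E4 (τ : ℂ) : ℂ :=
  1 + 240 * ∑' m : ℕ, ((ArithmeticFunction.sigma 3 (m + 1) : ℕ) : ℂ) *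
    Complex.exp (2 * (Real.pi : ℂ) * Complex.I * τ) ^ (m + 1)

/-- the normalised Eisenstein series of weight `6` -/
noncomputable def E6 (τ : ℂ) : ℂ :=
  1 - 504 * ∑' m : ℕ, ((ArithmeticFunction.sigma 5 (m + 1) : ℕ) : ℂ) *
    Complex.exp (2 * (Real.pi : ℂ) * Complex.I * τ) ^ (m + 1)

/-- the modular invariant `j = q⁻¹ + 744 + 196884 q + ⋯` -/
noncomputable def J (τ : ℂ) : ℂ := 1728 * E4 τ ^ 3 / (E4 τ ^ 3 - E6 τ ^ 2)

/-- The numbers `z`, `j(z)`, `j'(z)`, `j''(z)`. -/
noncomputable def numbers (z : ℂ) : Fin 4 → ℂ := ![z, J z, deriv J z, deriv (deriv J) z]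

/-- The points which are considered: points of the upper half-plane with `j' ≠ 0`. -/
def Pts : Set ℂ := {z | 0 < z.im ∧ deriv J z ≠ 0}

/-- `z` and `w` are in the same orbit of `GL_2(ℚ)`. -/
def SameOrbit (z w : ℂ) : Prop :=
  ∃ a b c d : ℚ, a * d - b * c ≠ 0 ∧ w = ((a : ℂ) * z + (b : ℂ)) / ((c : ℂ) * z + (d : ℂ))

/-- `z` is special. -/
def Special (z : ℂ) : Prop :=
  ∃ a b c : ℤ, (a ≠ 0 ∨ b ≠ 0 ∨ c ≠ 0) ∧ (a : ℂ) * z ^ 2 + (b : ℂ) * z + (c : ℂ) = 0

open Classical in
/-- `1` for special points and `3` for the other points -/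
noncomputable def weight (z : ℂ) : ℕ := if Special z then 1 else 3

/-- The field generated by the numbers `z`, `j(z)`, `j'(z)`, `j''(z)` with `z` in `F`. -/
noncomputable abbrev fieldOf (F : Set ℂ) : IntermediateField ℚ ℂ :=
  IntermediateField.adjoin ℚ (⋃ y ∈ F, range (numbers y))

/-- The conjecture: for points with `j' ≠ 0` in different orbits there are `3 m_1 + m_2` algebraically independent ones
among the numbers `z_i`, `j(z_i)`, `j'(z_i)`, `j''(z_i)`. -/
def Conjecture : Prop :=
  ∀ (n : ℕ) (z : Fin n → ℂ), (∀ i, z i ∈ Pts) → (∀ i k, i ≠ k → ¬ SameOrbit (z i) (z k)) →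
    ∃ w : Fin (∑ i, weight (z i)) → ℂ, (∀ k, ∃ i t, w k = numbers (z i) t) ∧ AlgebraicIndependent ℚ w

/-- The inequality up to a bounded error. -/
def BoundedError : Prop :=
  ∃ C : ℕ, ∀ (n : ℕ) (z : Fin n → ℂ), (∀ i, z i ∈ Pts) → (∀ i k, i ≠ k → ¬ SameOrbit (z i) (z k)) →
    ∃ w : Fin ((∑ i, weight (z i)) - C) → ℂ, (∀ k, ∃ i t, w k = numbers (z i) t) ∧ AlgebraicIndependent ℚ w

/-- The inequality over the field of `B`, for the points outside of `B`. -/
def ExactOver (B : Set ℂ) : Prop :=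
  ∀ (n : ℕ) (z : Fin n → ℂ), (∀ i, z i ∈ Pts) → (∀ i k, i ≠ k → ¬ SameOrbit (z i) (z k)) → (∀ i, z i ∉ B) →
    ∃ w : Fin (∑ i, weight (z i)) → ℂ, (∀ k, ∃ i t, w k = numbers (z i) t) ∧ AlgebraicIndependent (fieldOf B) w

/-- `B` is a union of orbits (in the set of the points with `j' ≠ 0`). -/
def UnionOfOrbits (B : Set ℂ) : Prop := B ⊆ Pts ∧ ∀ z ∈ B, ∀ w ∈ Pts, SameOrbit z w → w ∈ B

/-- The points of `S` have `j' ≠ 0` and are in different orbits. -/
def Independent (S : Finset ℂ) : Prop :=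
  (∀ z ∈ S, z ∈ Pts) ∧ ∀ z ∈ S, ∀ w ∈ S, z ≠ w → ¬ SameOrbit z w

/-- The defect: `3 m_1 + m_2` minus the transcendence degree. -/
noncomputable def defect (S : Finset ℂ) : ℤ :=
  ((∑ z ∈ S, weight z : ℕ) : ℤ) - ((Algebra.trdeg ℚ (fieldOf (S : Set ℂ))).toNat : ℤ)

/-! ### Preparations -/

open Pool.Agent.Q280.MD
open Pool.Agent.TH21.MS (jj)

theorem J_eq : J = jj := rfl

theorem range_numbers (z : ℂ) : range (numbers z) = jet z := by
  rw [jet_eq_range, numbers, J_eq]

theorem same_iff {z w : ℂ} (hz : 0 < z.im) (hw : 0 < w.im) :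
    SameOrbit z w ↔ Pool.Agent.Q280.MS.Equivalent z w := by
  rw [equivalent_iff_div hz]
  constructor
  · rintro ⟨a, b, c, d, h1, h2⟩
    refine ⟨a, b, c, d, ?_, h2⟩
    have h3 : w.im = ((a * d - b * c : ℚ) : ℝ) * z.im / Complex.normSq ((c : ℂ) * z + d) := by
      rw [h2, Complex.div_im]
      simp only [Complex.add_re, Complex.add_im, Complex.mul_re, Complex.mul_im, Complex.ratCast_re,
        Complex.ratCast_im]
      push_cast
      ring
    by_contra hcon
    push Not at hcon
    have h4 : ((a * d - b * c : ℚ) : ℝ) ≤ 0 := by exact_mod_cast hcon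
    have h5 : w.im ≤ 0 := by
      rw [h3]
      exact div_nonpos_of_nonpos_of_nonneg (mul_nonpos_of_nonpos_of_nonneg h4 hz.le) (Complex.normSq_nonneg _)
    linarith
  · rintro ⟨a, b, c, d, h1, h2⟩
    exact ⟨a, b, c, d, h1.ne', h2⟩

/-- the system of the points with `j' ≠ 0` -/
@[reducible] noncomputable def A : SysW := sysD _ goodD

theorem pt {z : ℂ} (hz : z ∈ Pts) : 0 < z.im ∧ deriv jj z ≠ 0 := hz

theorem w_eq (x : A.X) : A.w x = weight x.1 := rfl

theorem q_eq_iff {x y : A.X} : A.q x = A.q y ↔ SameOrbit x.1 y.1 := by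
  rw [same_iff x.2.1 y.2.1]
  exact sysD_q goodD

theorem q_inj {n : ℕ} {z : Fin n → ℂ} (h1 : ∀ i, z i ∈ Pts) (h2 : ∀ i k, i ≠ k → ¬ SameOrbit (z i) (z k))
    (i k : Fin n) (h : A.q (⟨z i, h1 i⟩ : A.X) = A.q ⟨z k, h1 k⟩) : i = k := by
  by_contra hik
  exact h2 i k hik (q_eq_iff.mp h)

theorem mem_numbers {n : ℕ} {z : Fin n → ℂ} {a : ℂ} : a ∈ (⋃ i, jet (z i)) ↔ ∃ i t, a = numbers (z i) t := by
  rw [mem_iUnion]
  refine exists_congr fun i => ?_
  rw [← range_numbers, mem_range]
  exact exists_congr fun t => eq_comm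

/-- the classes of the points of a set -/
def cl (B : Set ℂ) : Set A.O := {v | ∃ x : A.X, x.1 ∈ B ∧ A.q x = v}

theorem q_mem_cl {B : Set ℂ} (hB : UnionOfOrbits B) {x : A.X} : A.q x ∈ cl B ↔ x.1 ∈ B := by
  constructor
  · rintro ⟨y, hy, h⟩
    exact hB.2 _ hy _ x.2 (q_eq_iff.mp h)
  · intro h
    exact ⟨x, h, rfl⟩

theorem P_cl {B : Set ℂ} (hB : UnionOfOrbits B) : A.P (cl B) = ⋃ y ∈ B, range (numbers y) := by
  ext a
  simp only [mem_iUnion]
  constructor
  · rintro ⟨x, hx, ha⟩
    refine ⟨x.1, (q_mem_cl hB).mp hx, ?_⟩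
    rw [range_numbers]
    exact ha
  · rintro ⟨y, hy, ha⟩
    rw [range_numbers] at ha
    exact ⟨⟨y, hB.1 hy⟩, (q_mem_cl hB).mpr hy, ha⟩

open Classical in
theorem exact_iff {B : Set ℂ} (hB : UnionOfOrbits B) :
    ExactOver B ↔ ∀ V : Finset A.O, SysW.dfc V ≤ SysW.dfc (V.filter fun v => v ∈ cl B) := by
  constructor
  · intro h
    refine SysW.concentrated_of_family fun n z h1 h2 => ?_
    obtain ⟨w, hw1, hw2⟩ := h n (fun i => (z i).1) (fun i => (z i).2)
      (fun i k hik he => hik (h1 i k (q_eq_iff.mpr he))) (fun i hi => h2 i ((q_mem_cl hB).mpr hi))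
    refine ⟨w, fun k => ?_, ?_⟩
    · exact mem_numbers.mpr (hw1 k)
    · rw [P_cl hB]
      exact hw2
  · intro h n z h1 h2 h3
    obtain ⟨w, hw1, hw2⟩ := SysW.family_of_concentrated h (fun i => (⟨z i, h1 i⟩ : A.X)) (q_inj h1 h2)
      (fun i hi => h3 i ((q_mem_cl hB).mp hi))
    refine ⟨w, fun k => ?_, ?_⟩
    · exact mem_numbers.mp (hw1 k)
    · rw [P_cl hB] at hw2
      exact hw2

open Classical in
theorem conj_iff : Conjecture ↔ ∀ V : Finset A.O, SysW.dfc V ≤ 0 := by
  constructor
  · intro h V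
    obtain ⟨u, _, h1, h2, h3⟩ := SysW.exists_reps V univ fun v _ => by
      obtain ⟨x, rfl⟩ := Quotient.exists_rep v
      exact ⟨x, mem_univ _, rfl⟩
    obtain ⟨w, hw1, hw2⟩ := h _ (fun i => (u i).1) (fun i => (u i).2)
      (fun i k hik he => hik (h3 i k (q_eq_iff.mpr he)))
    have h4 : ((∑ i, A.w (u i) : ℕ) : ℕ∞) ≤ A.rk (SysW.img u : Set A.O) := by
      rw [SysW.rk_img]
      exact enat_le_eRk w hw2 fun k => subset_cl _ (mem_numbers.mpr (hw1 k))
    have h5 : SysW.img u = V := by
      ext v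
      unfold SysW.img
      rw [Finset.mem_image]
      constructor
      · rintro ⟨i, _, rfl⟩
        exact h1 i
      · intro hv
        obtain ⟨k, hk⟩ := h2 v hv
        exact ⟨k, Finset.mem_univ _, hk⟩
    rw [← SysW.Wt_img u h3, h5, ← SysW.rN_le_iff] at h4
    unfold SysW.dfc
    omega
  · intro h n z h1 h2
    have h3 := h (SysW.img (A := A) fun i => ⟨z i, h1 i⟩)
    unfold SysW.dfc at h3
    rw [SysW.Wt_img _ (q_inj h1 h2)] at h3
    have h4 : ∑ i, A.w (⟨z i, h1 i⟩ : A.X) ≤ SysW.rN (SysW.img (A := A) fun i => ⟨z i, h1 i⟩) := by omega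
    rw [SysW.rN_le_iff, SysW.rk_img] at h4
    obtain ⟨w, hw1, hw2⟩ := exists_of_le_eRk h4
    exact ⟨w, fun k => mem_numbers.mp (hw1 k), hw2⟩

open Classical in
theorem bounded_iff : BoundedError ↔ ∃ C : ℤ, ∀ V : Finset A.O, SysW.dfc V ≤ C := by
  constructor
  · rintro ⟨C, h⟩
    refine ⟨C, fun V => ?_⟩
    obtain ⟨u, _, h1, h2, h3⟩ := SysW.exists_reps V univ fun v _ => by
      obtain ⟨x, rfl⟩ := Quotient.exists_rep v
      exact ⟨x, mem_univ _, rfl⟩
    obtain ⟨w, hw1, hw2⟩ := h _ (fun i => (u i).1) (fun i => (u i).2)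
      (fun i k hik he => hik (h3 i k (q_eq_iff.mpr he)))
    have h4 : (((∑ i, A.w (u i)) - C : ℕ) : ℕ∞) ≤ A.rk (SysW.img u : Set A.O) := by
      rw [SysW.rk_img]
      exact enat_le_eRk w hw2 fun k => subset_cl _ (mem_numbers.mpr (hw1 k))
    have h5 : SysW.img u = V := by
      ext v
      unfold SysW.img
      rw [Finset.mem_image]
      constructor
      · rintro ⟨i, _, rfl⟩
        exact h1 i
      · intro hv
        obtain ⟨k, hk⟩ := h2 v hv
        exact ⟨k, Finset.mem_univ _, hk⟩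
    rw [← SysW.Wt_img u h3, h5, ← SysW.rN_le_iff] at h4
    unfold SysW.dfc
    omega
  · rintro ⟨C, h⟩
    refine ⟨C.toNat, fun n z h1 h2 => ?_⟩
    have h3 := h (SysW.img (A := A) fun i => ⟨z i, h1 i⟩)
    unfold SysW.dfc at h3
    rw [SysW.Wt_img _ (q_inj h1 h2)] at h3
    have h4 : (∑ i, A.w (⟨z i, h1 i⟩ : A.X)) - C.toNat ≤ SysW.rN (SysW.img (A := A) fun i => ⟨z i, h1 i⟩) := by
      omega
    rw [SysW.rN_le_iff, SysW.rk_img] at h4
    obtain ⟨w, hw1, hw2⟩ := exists_of_le_eRk h4
    exact ⟨w, fun k => mem_numbers.mp (hw1 k), hw2⟩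

open Classical in
/-- the classes of a finite set of points -/
noncomputable def cls (S : Finset ℂ) : Finset A.O := (S.subtype fun z => 0 < z.im ∧ deriv jj z ≠ 0).image A.q

open Classical in
theorem mem_cls {S : Finset ℂ} {v : A.O} : v ∈ cls S ↔ ∃ x : A.X, x.1 ∈ S ∧ A.q x = v := by
  unfold cls
  rw [Finset.mem_image]
  refine exists_congr fun x => ?_
  rw [Finset.mem_subtype]

theorem defect_eq {S : Finset ℂ} (hS : Independent S) : defect S = SysW.dfc (cls S) := by
  classical
  have h1 : A.Wt (cls S) = ∑ z ∈ S, weight z := by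
    unfold SysW.Wt cls
    rw [Finset.sum_image]
    · exact Finset.sum_subtype_of_mem weight fun z hz => hS.1 z hz
    · intro x hx y hy hxy
      have h2 := q_eq_iff.mp hxy
      by_contra hne
      exact hS.2 _ (Finset.mem_subtype.mp hx) _ (Finset.mem_subtype.mp hy) (fun h => hne (Subtype.ext h)) h2
  have h2 : A.rk (cls S : Set A.O) = M.eRk (⋃ y ∈ (S : Set ℂ), range (numbers y)) := by
    refine le_antisymm ?_ (M.eRk_mono ?_)
    · rw [← M.eRk_closure_eq (⋃ y ∈ (S : Set ℂ), range (numbers y))]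
      refine M.eRk_mono (SysW.P_sub fun v hv => ?_)
      obtain ⟨x, hx, h3⟩ := mem_cls.mp hv
      refine ⟨x, h3, ?_⟩
      refine Subset.trans ?_ (subset_cl _)
      have h4 := subset_biUnion_of_mem (u := fun y => range (numbers y)) (Finset.mem_coe.mpr hx)
      rw [range_numbers] at h4
      exact h4
    · refine iUnion₂_subset fun y hy => ?_
      rw [range_numbers]
      exact SysW.S_sub_P (A := A) (x := ⟨y, hS.1 y hy⟩) (Finset.mem_coe.mpr (mem_cls.mpr ⟨_, hy, rfl⟩))
  have h3 : (Algebra.trdeg ℚ (fieldOf (S : Set ℂ))).toNat = SysW.rN (cls S) := by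
    unfold SysW.rN
    rw [h2]
    refine Pool.Agent.Q280.SD.trdeg_adjoin _ ?_
    rw [← h2]
    exact SysW.rk_ne_top _
  unfold defect SysW.dfc
  rw [h1, h3]

theorem sub_indep {S S' : Finset ℂ} (hS : Independent S) (h : S' ⊆ S) : Independent S' :=
  ⟨fun z hz => hS.1 z (h hz), fun z hz w hw => hS.2 z (h hz) w (h hw)⟩

open Classical in
/-- a set is tight if and only if its set of classes is tight -/
theorem tight_iff {S : Finset ℂ} (hS : Independent S) :
    (∀ S' ⊂ S, defect S' < defect S) ↔ Tight SysW.dfc (cls S) := by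
  constructor
  · intro h X hX
    obtain ⟨S', hS'⟩ : ∃ S' : Finset ℂ, S' = S.filter fun z => ∃ hz : 0 < z.im ∧ deriv jj z ≠ 0, A.q ⟨z, hz⟩ ∈ X :=
      ⟨_, rfl⟩
    have h1 : S' ⊆ S := by rw [hS']; exact Finset.filter_subset _ _
    have h2 : cls S' = X := by
      ext v
      rw [mem_cls]
      constructor
      · rintro ⟨x, hx, rfl⟩
        rw [hS', Finset.mem_filter] at hx
        exact hx.2.2
      · intro hv
        obtain ⟨x, hx, h3⟩ := mem_cls.mp (hX.1 hv)
        refine ⟨x, ?_, h3⟩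
        rw [hS', Finset.mem_filter]
        exact ⟨hx, x.2, by rw [h3]; exact hv⟩
    have h3 : S' ≠ S := by
      rintro h4
      rw [h4] at h2
      exact hX.2 (by rw [h2])
    have h4 := h S' (Finset.ssubset_iff_subset_ne.mpr ⟨h1, h3⟩)
    rw [defect_eq hS, defect_eq (sub_indep hS h1), h2] at h4
    exact h4
  · intro h S' hS'
    rw [defect_eq hS, defect_eq (sub_indep hS hS'.1)]
    apply h
    refine ⟨fun v hv => ?_, fun h1 => hS'.2 fun z hz => ?_⟩
    · obtain ⟨x, hx, h3⟩ := mem_cls.mp hv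
      exact mem_cls.mpr ⟨x, hS'.1 hx, h3⟩
    · obtain ⟨x, hx, h3⟩ := mem_cls.mp (h1 (mem_cls.mpr ⟨(⟨z, hS.1 z hz⟩ : A.X), hz, rfl⟩))
      have h4 := q_eq_iff.mp h3
      by_contra hcon
      have h5 : x.1 ≠ z := fun h6 => hcon (by rw [← h6]; exact hx)
      exact hS.2 _ (hS'.1 hx) _ hz h5 h4

open Classical in
/-- **The exceptional orbits of the modular Schanuel conjecture with derivatives and special points.** -/
theorem result : ∃ B : Set ℂ, UnionOfOrbits B ∧ (∀ z ∈ B, -(starRingEnd ℂ) z ∈ B) ∧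
    -- the inequality is exact over `B`, and `B` is the smallest union of orbits with this property
    ExactOver B ∧ (∀ B' : Set ℂ, UnionOfOrbits B' → ExactOver B' → B ⊆ B') ∧
    -- description of `B`, concentration of the defect on `B`
    (∀ z : ℂ, z ∈ B ↔ ∃ S : Finset ℂ, z ∈ S ∧ Independent S ∧ ∀ S' ⊂ S, defect S' < defect S) ∧
    (∀ S : Finset ℂ, Independent S → defect S ≤ defect (S.filter fun z => z ∈ B)) ∧
    -- the conjecture and the conjecture with a bounded error in terms of `B`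
    (Conjecture ↔ B = ∅) ∧
    (BoundedError ↔ ∃ F : Finset ℂ, (F : Set ℂ) ⊆ B ∧ ∀ z ∈ B, ∃ x ∈ F, SameOrbit x z) := by
  obtain ⟨f, hfdef⟩ : ∃ f : Finset A.O → ℤ, f = SysW.dfc := ⟨_, rfl⟩
  have hf : ∀ V W, f V + f W ≤ f (V ∩ W) + f (V ∪ W) := by
    rw [hfdef]; exact SysW.dfc_supermod
  obtain ⟨B, hBdef⟩ : ∃ B : Set ℂ, B = {z | ∃ h : 0 < z.im ∧ deriv jj z ≠ 0, A.q ⟨z, h⟩ ∈ Core f} := ⟨_, rfl⟩
  have hmem : ∀ x : A.X, x.1 ∈ B ↔ A.q x ∈ Core f := by
    intro x
    rw [hBdef]
    constructor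
    · rintro ⟨_, h⟩
      exact h
    · intro h
      exact ⟨x.2, h⟩
  have hU : UnionOfOrbits B := by
    constructor
    · intro z hz
      rw [hBdef] at hz
      exact hz.1
    · intro z hz w hw hzw
      have hz' : 0 < z.im ∧ deriv jj z ≠ 0 := by
        rw [hBdef] at hz
        exact hz.1
      have h1 := (hmem ⟨z, hz'⟩).mp hz
      have h2 : A.q (⟨z, hz'⟩ : A.X) = A.q ⟨w, hw⟩ := q_eq_iff.mpr hzw
      rw [h2] at h1
      exact (hmem ⟨w, hw⟩).mpr h1
  have hclB : cl B = Core f := by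
    ext v
    constructor
    · rintro ⟨x, hx, rfl⟩
      exact (hmem x).mp hx
    · intro hv
      obtain ⟨x, rfl⟩ := Quotient.exists_rep v
      exact ⟨x, (hmem x).mpr hv, rfl⟩
  refine ⟨B, hU, ?_, ?_, ?_, ?_, ?_, ?_, ?_⟩
  · intro z hz
    have hz' : 0 < z.im ∧ deriv jj z ≠ 0 := hU.1 hz
    obtain ⟨T, hT, hzT⟩ := (hmem ⟨z, hz'⟩).mp hz
    have h1 : Tight f (T.image SysW.τ) := by
      intro X hX
      have h2 : X.image SysW.τ ⊂ T := by
        have h3 : (X.image SysW.τ).image SysW.τ = X := by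
          rw [Finset.image_image]
          have : (SysW.τ ∘ SysW.τ : A.O → A.O) = id := funext SysW.ττ
          rw [this, Finset.image_id]
        have h4 : (T.image SysW.τ).image SysW.τ = T := by
          rw [Finset.image_image]
          have : (SysW.τ ∘ SysW.τ : A.O → A.O) = id := funext SysW.ττ
          rw [this, Finset.image_id]
        refine ⟨?_, fun h5 => hX.2 ?_⟩
        · have := Finset.image_subset_image (f := SysW.τ) hX.1
          rwa [h4] at this
        · have := Finset.image_subset_image (f := SysW.τ) h5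
          rwa [h3] at this
      have h5 := hT _ h2
      rw [hfdef] at h5 ⊢
      rw [SysW.dfc_image] at h5
      rw [SysW.dfc_image]
      exact h5
    have h2 : A.q (A.σ ⟨z, hz'⟩) ∈ Core f := ⟨_, h1, Finset.mem_image.mpr ⟨_, hzT, rfl⟩⟩
    exact (hmem (A.σ ⟨z, hz'⟩)).mpr h2
  · rw [exact_iff hU, hclB]
    intro V
    rw [← hfdef]
    exact le_inter_core hf V
  · intro B' hB' hex
    rw [exact_iff hB'] at hex
    have h1 : Core f ⊆ cl B' := core_min (f := f) (by rw [hfdef]; exact hex)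
    intro z hz
    have hz' : 0 < z.im ∧ deriv jj z ≠ 0 := hU.1 hz
    exact (q_mem_cl (x := ⟨z, hz'⟩) hB').mp (h1 ((hmem ⟨z, hz'⟩).mp hz))
  · intro z
    constructor
    · intro hz
      have hz' : 0 < z.im ∧ deriv jj z ≠ 0 := hU.1 hz
      obtain ⟨T, hT, hzT⟩ := (hmem ⟨z, hz'⟩).mp hz
      have hg : ∃ g : A.O → A.X, (∀ v, A.q (g v) = v) ∧ g (A.q ⟨z, hz'⟩) = ⟨z, hz'⟩ := by
        refine ⟨fun v => if v = A.q ⟨z, hz'⟩ then ⟨z, hz'⟩ else Quotient.out v, fun v => ?_, if_pos rfl⟩
        by_cases hv : v = A.q ⟨z, hz'⟩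
        · simp only [if_pos hv]
          exact hv.symm
        · simp only [if_neg hv]
          exact Quotient.out_eq v
      obtain ⟨g, hg1, hg2⟩ := hg
      have hS : Independent (T.image fun v => (g v).1) := by
        constructor
        · intro y hy
          rw [Finset.mem_image] at hy
          obtain ⟨v, _, rfl⟩ := hy
          exact (g v).2
        · intro y hy w hw hne h
          rw [Finset.mem_image] at hy hw
          obtain ⟨v, _, rfl⟩ := hy
          obtain ⟨v', _, rfl⟩ := hw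
          have h1 := q_eq_iff.mpr h
          rw [hg1, hg1] at h1
          exact hne (by rw [h1])
      have hcls : cls (T.image fun v => (g v).1) = T := by
        ext v
        rw [mem_cls]
        constructor
        · rintro ⟨x, hx, rfl⟩
          rw [Finset.mem_image] at hx
          obtain ⟨v, hv, h1⟩ := hx
          have h2 : g v = x := Subtype.ext h1
          rw [← h2, hg1]
          exact hv
        · intro hv
          exact ⟨g v, Finset.mem_image.mpr ⟨v, hv, rfl⟩, hg1 v⟩
      refine ⟨_, ?_, hS, ?_⟩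
      · rw [Finset.mem_image]
        exact ⟨_, hzT, by rw [hg2]⟩
      · rw [tight_iff hS, hcls, ← hfdef]
        exact hT
    · rintro ⟨S, hzS, hS, h⟩
      rw [tight_iff hS, ← hfdef] at h
      exact (hmem ⟨z, hS.1 z hzS⟩).mpr ⟨_, h, mem_cls.mpr ⟨_, hzS, rfl⟩⟩
  · intro S hS
    rw [defect_eq hS, defect_eq (sub_indep hS (Finset.filter_subset _ _))]
    have h1 : cls (S.filter fun z => z ∈ B) = (cls S).filter fun v => v ∈ Core f := by
      ext v
      rw [mem_cls, Finset.mem_filter, mem_cls]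
      constructor
      · rintro ⟨x, hx, rfl⟩
        rw [Finset.mem_filter] at hx
        exact ⟨⟨x, hx.1, rfl⟩, (hmem x).mp hx.2⟩
      · rintro ⟨⟨x, hx, rfl⟩, h2⟩
        exact ⟨x, Finset.mem_filter.mpr ⟨hx, (hmem x).mpr h2⟩, rfl⟩
    rw [h1, ← hfdef]
    exact le_inter_core hf _
  · rw [conj_iff]
    have h1 : B = ∅ ↔ Core f = ∅ := by
      rw [← hclB]
      constructor
      · intro h
        rw [h]
        ext v
        simp only [mem_empty_iff_false, iff_false]
        rintro ⟨x, hx, _⟩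
        exact hx
      · intro h
        rw [Set.eq_empty_iff_forall_notMem] at h ⊢
        intro z hz
        exact h _ ⟨⟨z, hU.1 hz⟩, hz, rfl⟩
    rw [h1, core_empty_iff]
    refine forall_congr' fun V => ?_
    rw [hfdef, SysW.dfc_empty]
  · rw [bounded_iff]
    have h1 := core_finite_iff hf
    rw [hfdef] at h1
    rw [← h1]
    constructor
    · intro h
      refine ⟨h.toFinset.image fun v => (Quotient.out v).1, ?_, fun z hz => ?_⟩
      · intro y hy
        rw [Finset.mem_coe, Finset.mem_image] at hy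
        obtain ⟨v, hv, rfl⟩ := hy
        rw [Set.Finite.mem_toFinset, ← hfdef, ← Quotient.out_eq v] at hv
        exact (hmem (Quotient.out v)).mpr hv
      · have hz' : 0 < z.im ∧ deriv jj z ≠ 0 := hU.1 hz
        have h2 : A.q ⟨z, hz'⟩ ∈ h.toFinset := by
          rw [Set.Finite.mem_toFinset, ← hfdef]
          exact (hmem ⟨z, hz'⟩).mp hz
        refine ⟨_, Finset.mem_image.mpr ⟨_, h2, rfl⟩, ?_⟩
        exact q_eq_iff.mp (Quotient.out_eq (A.q (⟨z, hz'⟩ : A.X)))
    · rintro ⟨F, hFB, hF⟩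
      refine ((cls F).finite_toSet).subset ?_
      intro v hv
      obtain ⟨y, rfl⟩ := Quotient.exists_rep v
      rw [← hfdef] at hv
      obtain ⟨x, hx, hxy⟩ := hF y.1 ((hmem y).mpr hv)
      refine Finset.mem_coe.mpr (mem_cls.mpr ⟨⟨x, hU.1 (hFB hx)⟩, hx, ?_⟩)
      exact q_eq_iff.mpr hxy

end Pool.Agent.Results.MP_f58a57_nt.ExceptionalOrbits
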