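import Pool.Agent.Q189.JM.Out2

/-!
# The modular Schanuel conjecture with derivatives and special points: a measure over number fields, with `2 π i` and the
# logarithms of the invariants, at almost all algebraic invariants

Let `z_1, …, z_k` be points of the upper half-plane with algebraic invariants `α_i = j(z_i)`, not special and pairwise not
equivalent under `GL_2(ℚ)`. The conjecture predicts that the `3 k` numbers `z_i`, `j'(z_i)`, `j''(z_i)` are algebraically
independent, also over the field generated by the values at special points. We prove for almost all tuples of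
invariants, for ALL points `z_i` above them and ALL logarithms `λ_i` of the numbers `α_i`:

* a measure of algebraic independence of the `4 k + 1` numbers `2 π i`, `z_i`, `j'(z_i)`, `j''(z_i)`, `λ_i` over number fields:
  `|P| ≥ H ^ (-B)` for every nonzero polynomial `P` of degree at most `d` whose coefficients are algebraic integers of
  a number field of degree at most `D` (any number field, it may contain the `α_i`), with conjugates at most `H`
  in absolute value;
* relative to `2 π i` and to arbitrary complex numbers `ζ_1, …, ζ_g` (for example the values `j'(τ)` at special points `τ`):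
  near relations of the `4 k` numbers over `ℤ[2 π i, ζ, α]` are near relations everywhere,
  `|P(w, 2 π i, ζ, α)| ≤ (H max(1, |w|)) ^ B |P(z, j'(z), j''(z), λ, 2 π i, ζ, α)|` for all `P` over the integers of degree at
  most `d` and height at most `H` and ALL complex `w`. So if `P(x, 2 π i, ζ, α)` does not vanish identically in `x`, it does not
  vanish at the `4 k` numbers, and if it is not small somewhere, it is not small at the `4 k` numbers: with `ζ_l = j'(τ_l)` this
  is the lower bound `3 m_1 + m_2` of the conjecture (for relations of degree at most `d`) as soon as `2 π i` and the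
  numbers `j'(τ_l)` are algebraically independent, and every measure for these `1 + m_2` numbers gives a measure for all of them.

`Ints m T` is the set of the algebraic integers of degree at most `m` all of whose conjugates are at most `T` in
absolute value. All but a proportion `O(T ^ (-c))` of the tuples in `Ints m T ^ k` have these properties; `B` depends on
`k`, `g`, `d`, `D`, `m` only. The assertions hold for all `H` in a long interval from `H₁` to `H₁ ^ exp (T ^ c)`, for every
sufficiently large `H₁`; and, with one exceptional set of tuples for all `H`, for a set of `H` of upper density at least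
`1 - T ^ (-c)` on the doubly logarithmic scale, in particular for arbitrarily large `H`.

Proof. (1) For `Im z` large the numbers are rational functions of `2 π i`, `j(z)`, `log j(z)` and the values at `1/j(z)` of four
G-functions (helper120); the family is connected. (2) The machine for near relations of arbitrary height at almost all
tuples (helper246, and `Pool.Agent.Q189.MF`). (3) `Pool.Agent.Q189.JM`: reduction of all points to the fundamental domain by
matrices with entries at most `H ^ 3`, all branches of the logarithms, substitution of fractions, interpolation. (4) The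
number `π` has a measure of transcendence (helper456), so a near relation would be contradicted at integral points. (5) The
coefficients in number fields: the norm of a polynomial with integral coefficients is a polynomial over `ℤ`; the other
factors are bounded at the numbers.
-/

set_option autoImplicit false

namespace Pool.Agent.Results.MP_f58a57_nt.MeasureNumberFieldsLogarithms

/-- the normalised Eisenstein series of weight `4` -/
noncomputable def E4 (τ : ℂ) : ℂ :=
  1 + 240 * ∑' m : ℕ, ((ArithmeticFunction.sigma 3 (m + 1) : ℕ) : ℂ) *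
    Complex.exp (2 * (Real.pi : ℂ) * Complex.I * ((m : ℂ) + 1) * τ)

/-- the normalised Eisenstein series of weight `6` -/
noncomputable def E6 (τ : ℂ) : ℂ :=
  1 - 504 * ∑' m : ℕ, ((ArithmeticFunction.sigma 5 (m + 1) : ℕ) : ℂ) *
    Complex.exp (2 * (Real.pi : ℂ) * Complex.I * ((m : ℂ) + 1) * τ)

/-- the modular invariant `j = q⁻¹ + 744 + 196884 q + ⋯` -/
noncomputable def J (τ : ℂ) : ℂ := 1728 * E4 τ ^ 3 / (E4 τ ^ 3 - E6 τ ^ 2)

/-- the `4 k` numbers `z_i`, `j'(z_i)`, `j''(z_i)`, `λ_i` -/
noncomputable def numbers {k : ℕ} (z lam : Fin k → ℂ) (v : Fin k × Fin 4) : ℂ :=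
  ![z v.1, deriv J (z v.1), deriv (deriv J) (z v.1), lam v.1] v.2

/-- the constants `2 π i, ζ_1, …, ζ_g` and `α_1, …, α_k` -/
noncomputable def constants {g k : ℕ} (ζ : Fin g → ℂ) (α : Fin k → ℂ) : Fin (g + 1) ⊕ Fin k → ℂ :=
  Sum.elim (Fin.cons (2 * Real.pi * Complex.I) ζ : Fin (g + 1) → ℂ) α

/-- the algebraic integers of degree at most `m` all of whose conjugates have absolute value at most `T` -/
def Ints (m T : ℕ) : Set ℂ :=
  {α | IsIntegral ℤ α ∧ (minpoly ℚ α).natDegree ≤ m ∧ ∀ z : ℂ, Polynomial.aeval z (minpoly ℚ α) = 0 → ‖z‖ ≤ T}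

/-- The two assertions at the height `H`, for all points above the invariants `α` and all logarithms of the invariants:
the measure over number fields, and the transfer of near relations over `ℤ[2 π i, ζ, α]`. -/
def Good {k g : ℕ} (d D B : ℕ) (ζ : Fin g → ℂ) (α : Fin k → ℂ) (H : ℝ) : Prop :=
  ∀ z : Fin k → ℂ, (∀ i, 0 < (z i).im ∧ J (z i) = α i ∧ ‖z i‖ ≤ H ∧ 1 ≤ H * (z i).im) →
    ∀ lam : Fin k → ℂ, (∀ i, Complex.exp (lam i) = α i ∧ ‖lam i‖ ≤ H) →
    (∀ (K : IntermediateField ℚ ℂ) [FiniteDimensional ℚ K], Module.finrank ℚ K ≤ D →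
      ∀ P : MvPolynomial (Option (Fin k × Fin 4)) K, P ≠ 0 → P.totalDegree ≤ d →
        (∀ e, IsIntegral ℤ (P.coeff e) ∧ ∀ σ : K →ₐ[ℚ] ℂ, ‖σ (P.coeff e)‖ ≤ H) →
        1 ≤ H ^ B * ‖MvPolynomial.aeval (fun o : Option (Fin k × Fin 4) => o.elim (2 * (Real.pi : ℂ) * Complex.I)
          (numbers z lam)) P‖) ∧
    ∀ P : MvPolynomial ((Fin k × Fin 4) ⊕ (Fin (g + 1) ⊕ Fin k)) ℤ, P.totalDegree ≤ d →
      (∀ e, |((P.coeff e : ℤ) : ℝ)| ≤ H) → ∀ w : Fin k × Fin 4 → ℂ,
        ‖MvPolynomial.aeval (Sum.elim w (constants ζ α)) P‖ ≤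
          (H * max 1 ‖w‖) ^ B * ‖MvPolynomial.aeval (Sum.elim (numbers z lam) (constants ζ α)) P‖

/-- For all `k`, `g`, `d`, `D` and `m ≥ 1` there are `B`, `C` and `c > 0` such that for all `T ≥ 1`: for all but a proportion
`C T ^ (-c)` of the tuples `α` of elements of `Ints m T` the assertions hold for all `H` with `H₁ ≤ H ≤ H₁ ^ exp (T ^ c)`, for
each large `H₁`; and, with one exceptional set for all `H`, for a set of `H` of upper density at least `1 - T ^ (-c)` on the
doubly logarithmic scale. -/
theorem result (k g d D m : ℕ) (hm : 1 ≤ m) :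
    ∃ (B : ℕ) (C c : ℝ), 0 < c ∧ ∀ T : ℕ, 1 ≤ T →
    (∃ H₀ : ℝ, ∀ H₁ : ℝ, H₀ ≤ H₁ → ∀ ζ : Fin g → ℂ,
      (({α : Fin k → ℂ | (∀ i, α i ∈ Ints m T) ∧ ¬ ∀ H : ℝ, H₁ ≤ H → H ≤ H₁ ^ Real.exp ((T : ℝ) ^ c) →
        Good d D B ζ α H}.ncard : ℕ) : ℝ) ≤ C * (T : ℝ) ^ (-c) * (((Ints m T).ncard : ℕ) : ℝ) ^ k) ∧
    ∀ ζ : Fin g → ℂ, (({α : Fin k → ℂ | (∀ i, α i ∈ Ints m T) ∧ ¬ ∀ N₀ : ℕ, ∃ N, N₀ ≤ N ∧
      (({n : ℕ | n < N ∧ ¬ ∀ H : ℝ, 2 ^ (2 ^ n) ≤ H → H ≤ 2 ^ (2 ^ (n + 1)) →
        Good d D B ζ α H}.ncard : ℕ) : ℝ) ≤ (T : ℝ) ^ (-c) * N}.ncard : ℕ) : ℝ) ≤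
          C * (T : ℝ) ^ (-c) * (((Ints m T).ncard : ℕ) : ℝ) ^ k := by
  have h4 : E4 = Pool.Agent.TH21.MS.E4 := funext Pool.Agent.Y120.J.E4_same
  have h6 : E6 = Pool.Agent.TH21.MS.E6 := funext Pool.Agent.Y120.J.E6_same
  have hJ : J = Pool.Agent.TH21.MS.jj := by
    funext τ
    unfold J Pool.Agent.TH21.MS.jj
    rw [h4, h6]
  have hG : ∀ (B : ℕ) (ζ : Fin g → ℂ) (α : Fin k → ℂ) (H : ℝ), Good d D B ζ α H ↔ Pool.Agent.Q189.JM.Gd2 d D B ζ α H := by
    intro B ζ α H
    unfold Good Pool.Agent.Q189.JM.Gd2 numbers constants Pool.Agent.Q189.JM.n5 Pool.Agent.Q189.JM.cv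
      Pool.Agent.Q189.JM.House
    rw [hJ]
    exact Iff.rfl
  simp only [hG]
  exact Pool.Agent.Q189.JM.out2 k g d D m hm

end Pool.Agent.Results.MP_f58a57_nt.MeasureNumberFieldsLogarithms
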