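import Pool.Agent.Q138.PS.WH
import Pool.Agent.Q138.AJ.Rf58a57

/-!
# Values of `e^(-2πi z)`, `j`, `j'`, `j''` at the points of number fields which are close to given complex points

Let `s_1, …, s_p` be positive real numbers, linearly independent over `ℚ` (for example `p = 1`, `s_1 = 1`). For `z = (z_1, …, z_n)`
in `k ^ n`, `k ⊂ ℂ` a number field, `Im z_l > 0`, the tuple is exceptional (for `d`, `A`, `B` and `T`) if some nonzero polynomial
of degree at most `d` in each variable, with coefficients in `k` of height at most `T ^ A`, takes at `π` and the `4 p n` numbers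
`exp (-2πi s_i z_l)`, `j (s_i z_l)`, `j' (s_i z_l)`, `j'' (s_i z_l)` a value of absolute value at most `T ^ (-B)`. Exceptional tuples
(special points, orbits of `GL_2 (ℚ)`) are dense in general. We show that only the points `w` of a small set have exceptional
tuples among their good approximations.

* For a compact subset `K` of the upper half-plane, a number field `k ⊂ ℂ`, `d`, `A` and `ε > 0` there is `B` such that for all
  `θ > 0`, outside a set of `w ∈ ℂ^n` of Hausdorff dimension at most `(2 (n - 1) + ε) / θ`, for all large `T` no exceptional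
  tuple of `k`, of height at most `T` and with `z_l ∈ K`, satisfies `|z_l - w_l| ≤ T ^ (-θ)` for all `l`.
* Outside a set of Hausdorff dimension ZERO, every `w` with `Im w_l > 0` has the property that for all number fields `k ⊂ ℂ`,
  all `d` and all `A` there are `B` and `θ` such that for all large `T` no exceptional tuple of `k` of height at most `T`
  satisfies `|z_l - w_l| ≤ T ^ (-θ)` for all `l`.

The height is the multiplicative height of `k` (`Height.mulHeight₁`).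
-/

set_option autoImplicit false

namespace Pool.Agent.Results.MP_f58a57_nt.PointsNearGivenPoints

open Filter Pool.Agent.Q138.PS Pool.Agent.Q138.AJ.Rf58a57

theorem mono {p n d : ℕ} {s : Fin p → ℝ} {k : Type} [Field k] [NumberField k] (σ : k →+* ℂ) {K : Set ℂ} {A B T T' : ℝ}
    (h1 : max 1 (2 ^ max B 0) ≤ T) (h2 : T ≤ T') (h3 : T' ≤ 2 * T) :
    Exceptional σ n d s K A (max B 0 + 1) T ⊆ Exceptional σ n d s K (max A 0) B T' := by
  have h4 : 1 ≤ T := (le_max_left _ _).trans h1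
  rintro q ⟨hq, P, hP, hd, hc, hv⟩
  exact ⟨fun l => ⟨(hq l).1, (hq l).2.trans h2⟩, P, hP, hd, fun e => (hc e).trans (num_coeff h4 h2),
    hv.trans (num_value h4 ((le_max_right _ _).trans h1) h2 h3)⟩

theorem half_open : IsOpen {z : ℂ | 0 < z.im} := isOpen_lt continuous_const Complex.continuous_im

/-- **Theorem.** -/
theorem result (p n : ℕ) (hn : 1 ≤ n) (s : Fin p → ℝ) (hs0 : ∀ i, 0 < s i)
    (hs : ∀ c : Fin p → ℤ, ∑ i, (c i : ℝ) * s i = 0 → c = 0) :
    (∀ (K : Set ℂ), IsCompact K → (∀ z ∈ K, 0 < z.im) → ∀ (k : IntermediateField ℚ ℂ) [NumberField k] (d : ℕ)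
      (A ε : ℝ), 0 < ε → ∃ B : ℝ, ∀ θ : ℝ, 0 < θ → ∃ Z : Set (Fin n → ℂ),
        dimH Z ≤ ENNReal.ofReal ((2 * (n - 1 : ℕ) + ε) / θ) ∧ ∀ w, w ∉ Z → ∀ᶠ T : ℝ in atTop,
          ∀ z ∈ Exceptional (algebraMap k ℂ) n d s K A B T, ∃ l, T ^ (-θ) < ‖((z l : k) : ℂ) - w l‖) ∧
    ∃ Z : Set (Fin n → ℂ), dimH Z = 0 ∧ ∀ w, w ∉ Z → (∀ l, 0 < (w l).im) →
      ∀ (k : IntermediateField ℚ ℂ) [NumberField k] (d : ℕ) (A : ℝ), ∃ B θ : ℝ, 0 < θ ∧ ∀ᶠ T : ℝ in atTop,
        ∀ z ∈ Exceptional (algebraMap k ℂ) n d s Set.univ A B T, ∃ l, T ^ (-θ) < ‖((z l : k) : ℂ) - w l‖ := by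
  constructor
  · intro K hK hK' k _ d A ε hε
    obtain ⟨D, B, C, h⟩ := Pool.Agent.Q138.AJ.Rf58a57.result k (algebraMap k ℂ) p n d hn s hs0 hs K hK hK' (max A 0) ε hε
    refine ⟨max B 0 + 1, fun θ hθ => ⟨_, dimH_height k (algebraMap k ℂ)
      (fun T => Exceptional (algebraMap k ℂ) n d s K A (max B 0 + 1) T)
      (fun T => Exceptional (algebraMap k ℂ) n d s K (max A 0) B T) C 1 (max 1 (2 ^ max B 0)) ε θ hε hθ
      (fun T hT => ⟨(h T hT).2.1, (h T hT).2.2⟩) fun T T' h1 h2 h3 => mono _ h1 h2 h3, fun z hz => far_close _ _ _ z hz⟩⟩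
  · have hcN := countN
    obtain ⟨Z, hZ, hz⟩ := near_open (fun _ : Fin n => {z : ℂ | 0 < z.im}) (fun _ => half_open)
      (J := {K : IntermediateField ℚ ℂ // NumberField K} × ℕ × ℕ) (fun i => i.1.1)
      (fun i => algebraMap i.1.1 ℂ) (fun i B T => haveI := i.1.2
        Exceptional (algebraMap i.1.1 ℂ) n i.2.1 s Set.univ (i.2.2 : ℝ) B T) (by
        rintro ⟨⟨k, hk⟩, d, A⟩ l
        obtain ⟨D, B, C, h⟩ := Pool.Agent.Q138.AJ.Rf58a57.result k (algebraMap k ℂ) p n d hn s hs0 hs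
          (inner {z : ℂ | 0 < z.im} l) (inner_compact _ l) (fun q hq => inner_sub _ l hq) (max (A : ℝ) 0) 1 one_pos
        refine ⟨max B 0 + 1, 2 * (n - 1 : ℕ) + 1, fun θ hθ => dimH_height k (algebraMap k ℂ) _
          (fun T => Exceptional (algebraMap k ℂ) n d s (inner {z : ℂ | 0 < z.im} l) (max (A : ℝ) 0) B T) C 1
          (max 1 (2 ^ max B 0)) 1 θ one_pos hθ (fun T hT => ⟨(h T hT).2.1, (h T hT).2.2⟩) ?_⟩
        intro T T' h1 h2 h3 q hq
        exact mono _ h1 h2 h3 ⟨fun j => ⟨hq.2 j, (hq.1.1 j).2⟩, hq.1.2⟩)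
    refine ⟨Z, hZ, fun z hzZ hzΩ k hk d A => ?_⟩
    obtain ⟨B, θ, hθ, h⟩ := hz z hzZ hzΩ (⟨k, hk⟩, d, ⌈A⌉₊)
    refine ⟨B, θ, hθ, ?_⟩
    filter_upwards [h, eventually_ge_atTop 1] with T hT hT1
    intro q hq
    obtain ⟨h1, P, hP, hd, hc, hv⟩ := hq
    exact hT q ⟨h1, P, hP, hd, fun e => (hc e).trans (Real.rpow_le_rpow_of_exponent_le hT1 (Nat.le_ceil A)), hv⟩

end Pool.Agent.Results.MP_f58a57_nt.PointsNearGivenPoints
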